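import Mathlib
import Pool.Agent.Helper394.Wrap

set_option autoImplicit false

open Finset Filter Topology

namespace Pool.Agent.Y307.Cut

open Pool.Agent.Helper394

noncomputable section

variable {G : Type} [AddCommGroup G] [Fintype G] [DecidableEq G]

/-- the lazy step measure on a symmetric step set -/
def lz (S : Finset G) : G → ℝ :=
  fun x => (if x = 0 then 1 / 2 else 0) + (if x ∈ S then 1 / (2 * (S.card : ℝ)) else 0)

/-- the transition matrix of a convolution walk -/
def tr (μ : G → ℝ) : Matrix G G ℝ := fun x y => μ (y - x)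

theorem tr_lz_mulVec (S : Finset G) (f : G → ℝ) :
    (tr (lz S)).mulVec f = V S f := by
  ext x
  rw [V_apply, U_apply]
  simp only [Matrix.mulVec, dotProduct, tr, lz, add_mul, ite_mul, zero_mul]
  rw [Finset.sum_add_distrib]
  congr 1
  · have : ∀ y : G, (if y - x = 0 then 1 / 2 * f y else 0) = if y = x then 1 / 2 * f y else 0 := by
      intro y; simp only [sub_eq_zero]
    rw [Finset.sum_congr rfl fun y _ => this y, Finset.sum_ite_eq' univ x]
    simp
    ring
  · rw [← Finset.sum_filter]
    rw [div_div, Finset.sum_div]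
    refine Finset.sum_bij' (fun y _ => y - x) (fun s _ => x + s) ?_ ?_ ?_ ?_ ?_
    · intro y hy; simpa using hy
    · intro s hs; simpa using hs
    · intro y _; simp
    · intro s _; simp
    · intro y _
      simp only [add_sub_cancel]
      ring

theorem lz_nonneg (S : Finset G) (x : G) : 0 ≤ lz S x := by
  unfold lz
  have h1 : (0 : ℝ) ≤ if x = 0 then 1 / 2 else 0 := by split_ifs <;> norm_num
  have h2 : (0 : ℝ) ≤ if x ∈ S then 1 / (2 * (S.card : ℝ)) else 0 := by
    split_ifs <;> positivity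
  linarith

theorem lz_sum (S : Finset G) (hS : S.Nonempty) : ∑ x, lz S x = 1 := by
  have hc : (0 : ℝ) < S.card := by exact_mod_cast hS.card_pos
  simp only [lz, Finset.sum_add_distrib]
  rw [Finset.sum_ite_eq' univ (0 : G), ← Finset.sum_filter]
  simp only [Finset.mem_univ, if_true, Finset.filter_univ_mem, Finset.sum_const, nsmul_eq_mul]
  field_simp
  norm_num

theorem lz_symm (S : Finset G) (hS : ∀ s ∈ S, -s ∈ S) (x : G) : lz S (-x) = lz S x := by
  have h1 : (-x = 0) ↔ (x = 0) := neg_eq_zero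
  have h2 : (-x ∈ S) ↔ (x ∈ S) := by
    constructor
    · intro h; have := hS _ h; rwa [neg_neg] at this
    · intro h; exact hS _ h
  simp only [lz, h1, h2]

/-- Fourier transform of the lazy measure -/
theorem lz_char (S : Finset G) (χ : AddChar G ℂ) :
    ∑ x, (lz S x : ℂ) * χ x = 1 / 2 + (∑ s ∈ S, χ s) / (2 * (S.card : ℂ)) := by
  have h1 : ∀ x : G, (lz S x : ℂ) * χ x = (if x = 0 then (1 / 2 : ℂ) else 0) +
      (if x ∈ S then χ x / (2 * (S.card : ℂ)) else 0) := by
    intro x
    simp only [lz]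
    push_cast
    by_cases hx : x = 0
    · subst hx
      by_cases hs : (0 : G) ∈ S
      · simp [hs, add_mul]
      · simp [hs, add_mul]
    · by_cases hs : x ∈ S
      · simp [hs, hx]
        ring
      · simp [hs, hx]
  rw [Finset.sum_congr rfl fun x _ => h1 x, Finset.sum_add_distrib,
    Finset.sum_ite_eq' univ (0 : G), ← Finset.sum_filter]
  simp only [Finset.mem_univ, if_true, Finset.filter_univ_mem]
  rw [Finset.sum_div]

theorem lz_char_le {S : Finset G} {T : ℕ} (h : Bad S T) (χ : AddChar G ℂ) (hχ : χ ≠ 1) :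
    ‖∑ x, (lz S x : ℂ) * χ x‖ ≤ 7 / 8 := by
  rw [lz_char]
  have hc : (0 : ℝ) < S.card := by exact_mod_cast h.nonempty.card_pos
  have h1 := h.char χ hχ
  calc ‖(1 / 2 : ℂ) + (∑ s ∈ S, χ s) / (2 * (S.card : ℂ))‖
      ≤ ‖(1 / 2 : ℂ)‖ + ‖(∑ s ∈ S, χ s) / (2 * (S.card : ℂ))‖ := norm_add_le _ _
    _ = 1 / 2 + ‖∑ s ∈ S, χ s‖ / (2 * S.card) := by
        rw [norm_div]
        norm_num
    _ ≤ 1 / 2 + ((3 / 4 : ℝ) * S.card) / (2 * S.card) := by gcongr
    _ = 7 / 8 := by field_simp; norm_num

theorem tr_pow_shift (μ : G → ℝ) (t : ℕ) (x y z : G) :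
    ((tr μ) ^ t) (x + z) (y + z) = ((tr μ) ^ t) x y := by
  induction t generalizing x y with
  | zero => simp [Matrix.one_apply]
  | succ t ih =>
    rw [pow_succ, Matrix.mul_apply, Matrix.mul_apply]
    refine (Fintype.sum_equiv (Equiv.addRight z) _ _ fun w => ?_).symm
    simp only [Equiv.coe_addRight]
    rw [ih]
    congr 1
    simp only [tr]
    congr 1
    abel

/-- every start has the same distance to the uniform distribution -/
theorem tv_shift (μ : G → ℝ) (t : ℕ) (x : G) (c : ℝ) :
    ∑ y, |((tr μ) ^ t) x y - c| = ∑ y, |((tr μ) ^ t) 0 y - c| := by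
  refine (Fintype.sum_equiv (Equiv.addRight x) _ _ fun w => ?_).symm
  simp only [Equiv.coe_addRight]
  have := tr_pow_shift μ t 0 w x
  rw [zero_add] at this
  rw [this]

end

end Pool.Agent.Y307.Cut
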