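import Mathlib
import Pool.Agent.Y307.Cut.Conv

set_option autoImplicit false

open Finset Filter Topology

namespace Pool.Agent.Y307.Cut

open Pool.Agent.Helper394

noncomputable section

variable {n : ℕ} [NeZero n]

theorem hat_eq (μ : ZMod n → ℝ) (j : ZMod n) :
    ∑ x, (μ x : ℂ) * Complex.exp (2 * Real.pi * Complex.I * (j.val * x.val : ℕ) / n) =
      ∑ x, (μ x : ℂ) * (AddChar.mulShift (ZMod.stdAddChar (N := n)) j) x := by
  refine Finset.sum_congr rfl fun x _ => ?_
  congr 1
  rw [AddChar.mulShift_apply]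
  have h1 : j * x = (((j.val * x.val : ℕ) : ℤ) : ZMod n) := by
    push_cast
    rw [ZMod.natCast_zmod_val, ZMod.natCast_zmod_val]
  rw [h1, ZMod.stdAddChar_coe]
  push_cast
  rfl

theorem shift_ne_one (j : ZMod n) (hj : j ≠ 0) :
    AddChar.mulShift (ZMod.stdAddChar (N := n)) j ≠ 1 :=
  ZMod.isPrimitive_stdAddChar n hj

theorem hat_le {S : Finset (ZMod n)} {T : ℕ} (h : Bad S T) (j : ZMod n) (hj : j ≠ 0) :
    ‖∑ x, (lz S x : ℂ) * Complex.exp (2 * Real.pi * Complex.I * (j.val * x.val : ℕ) / n)‖ ≤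
      7 / 8 := by
  rw [hat_eq]
  exact lz_char_le h _ (shift_ne_one j hj)

/-- ergodicity -/
theorem ergodic {S : Finset (ZMod n)} {T : ℕ} (h : Bad S T) (H : AddSubgroup (ZMod n))
    (a : ZMod n) (hH : ∀ x, lz S x ≠ 0 → x - a ∈ H) : H = ⊤ := by
  have h0 : lz S 0 ≠ 0 := by
    have : 0 ∉ S := h.zero
    simp [lz, this]
  have ha : a ∈ H := by
    have := hH 0 h0
    rw [zero_sub] at this
    exact (AddSubgroup.neg_mem_iff H).mp this
  have hs : ∀ s ∈ S, s ∈ H := by
    intro s hs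
    have hc : (0 : ℝ) < S.card := by exact_mod_cast h.nonempty.card_pos
    have hne : lz S s ≠ 0 := by
      have hs0 : s ≠ 0 := fun h' => h.zero (h' ▸ hs)
      simp only [lz, hs, hs0, if_true, if_false, zero_add]
      positivity
    have := hH s hne
    have h2 := H.add_mem this ha
    rwa [sub_add_cancel] at h2
  rw [eq_top_iff]
  intro x _
  exact h.closed (H : Set (ZMod n)) 0 H.zero_mem (fun y hy s hs' => H.add_mem hy (hs s hs')) x

end

end Pool.Agent.Y307.Cut
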